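import Pool.Agent.FlipP_h28.PG2
import Pool.Agent.FlipP_h28.PH1

/-!
# The minimal model program with scaling for terminal varieties

A complete normal variety over the field `k` of characteristic zero with function field `K` is
the set `X` of the local rings of its points; flips, discrepancies and prime divisors are defined
in `Pool.Agent.Flip_h28.Defs`, projective varieties (`IsProj`) in `Pool.Agent.Flip_h28.AlgDefs`.
The codimension of a point is the Krull dimension of its local ring.

Let `c ≥ 2`.  The varieties `X i` are assumed to be smooth in codimension at most `c`, the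
discrepancies of the prime divisors whose centre is a singular point are greater than `c - 2`
(`Term b c (X i)`; for `c = 2` this says that `X i` is terminal), and `X i` has a resolution
(`HasRes`).

`Scaled b X`: there is an effective Weil divisor `H` on `X 0` such that for every `ε > 0`
infinitely many of the divisors `K + t H` on `X i` with `0 ≤ t ≤ ε` are nef (`H` denotes also the
strict transforms).  This is the case for the minimal model program with scaling by `H` if the nef
thresholds tend to zero.  Here `K + D` is called nef (`NefK`) if `K + D + δ A` is semiample for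
all rational `δ > 0`, where `A` is a hyperplane section.

A prime divisor `V` is bad (`BadDiv b c X V`) if `c - 2 < a(V, X i) < c - 1` for almost all `i`
and if infinitely many flips touch the closure of its centre.

Theorem.  Let `X 0, X 1, ...` be an infinite sequence of flips of such varieties of dimension `n`
which satisfies `Scaled`.  Assume that over every singular flipped point of codimension `c + 1`
there is a prime divisor whose discrepancy belongs to a given set `Δ` of rational numbers at most
`c - 1` which contains no strictly increasing sequences (this is void if the `X i` are smooth in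
codimension `c + 1`; for `c = 2` and `Δ = {1 / r}` it is a theorem of Markushevich and Kawamata
on terminal singularities of dimension 3).  Assume that for no bad `V` the discrepancies
`a(V, X i)` tend to `c - 1`.  Then `n ≥ 2 c + 3`, and for all but finitely many `i` the varieties
`X i` and `X (i + 1)` have the same points of codimension at most `c + 1`.

The exceptional case does not occur if for example the indices of the `X i` are bounded.  So for
`c = 2` and `n ≤ 6` such sequences are finite.
-/

open scoped KaehlerDifferential

universe u

namespace Pool.Agent.Results.MP_a06248_ag.ScalingFlips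

open Flip28

/-- Infinite sequences of flips in the minimal model program with scaling. -/
theorem result {k K : Type u} [Field k] [CharZero k] [Field K] [Algebra k K]
    [Algebra.EssFiniteType k K] {n : ℕ} (b : Module.Basis (Fin n) K Ω[K⁄k]) {c : ℕ} (hc : 2 ≤ c)
    (X Y : ℕ → Set (Subalgebra k K)) (hX : IsCompleteNormal (X 0))
    (hP : ∀ i, IsProj (X i)) (hf : ∀ i, IsFlip b (X i) (Y i) (X (i + 1)))
    (hT : ∀ i, Term b c (X i)) (hR : ∀ i, HasRes (X i))
    {Δ : Set ℚ} (hΔ : ∀ a ∈ Δ, a ≤ (c : ℚ) - 1)
    (hacc : ∀ f : ℕ → ℚ, StrictMono f → ∃ i, f i ∉ Δ)
    (hM : ∀ i, ∀ F ∈ X (i + 1), F ∉ X i → ringKrullDim F = ((c + 1 : ℕ) : WithBot ℕ∞) →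
      ¬ Algebra.FormallySmooth k F → ∃ E, IsPrimeDiv E ∧ Dom F E ∧ disc b (X (i + 1)) E ∈ Δ)
    (hS : Scaled b X)
    (hV : ∀ V, BadDiv b c X V → ∃ κ : ℚ, κ < (c : ℚ) - 1 ∧ ∀ i, disc b (X i) V ≤ κ) :
    2 * c + 3 ≤ n ∧ ∃ i1, ∀ i, i1 ≤ i → ∀ A : Subalgebra k K,
      ringKrullDim A ≤ ((c + 1 : ℕ) : WithBot ℕ∞) → (A ∈ X i ↔ A ∈ X (i + 1)) :=
  SetupN.mainS ⟨hc, hX, hP, hf, hT, hR⟩ hΔ hacc hM hS fun V h1 h2 h3 => hV V ⟨h1, h2, h3⟩

end Pool.Agent.Results.MP_a06248_ag.ScalingFlips
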