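import Pool.Agent.W_a06248_93.Small

/-!
# Flips when the base locus of a pluricanonical system is small

Varieties are described in Zariski's language: `K` is a finitely generated field extension of the
field `k` of characteristic zero, of transcendence degree `n`, and a complete normal variety over
`k` with function field `K` is given by the set `X` of the local rings of its points
(`IsCompleteNormal`); projective normal varieties are a special case (Zariski-Samuel,
Commutative Algebra II, Chapter VI, sections 17, 18).  The rational `n`-form `ω = b₁ ∧ ... ∧ bₙ`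
is given by a basis `b` of the Kaehler differentials of `K/k`; the orders of `ω` along discrete
valuation rings are computed with differentials (`cord`), so rational sections of
`O_X(m K_X)` are the elements `g ω^m`, `g ∈ K`.

A flip (`IsFlip`) is a diagram `X → Y ← X'` of complete normal varieties such that `X' → Y`
is small, `-m K_X` and `m' K_X'` are relatively very ample over `Y` for some `m, m' > 0` and
`Y` is not `ℚ`-Gorenstein.  Every flip in the sense of the problem (`X → Y` the contraction of
a `K_X`-negative extremal ray, `K_X'` positive on the curves contracted by `X' → Y`) is one, for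
`K_X'` is then ample over `Y` (`X' = Proj` of the canonical algebra, Shokurov).

The theorem: let `c ≥ 2` and let `S` be a finite set of sections of `O(m K)` on `X 0`, `m > 0`,
whose base locus has codimension at least `c`.  Assume that at the singular points of `X 0` in
the base locus the discrepancies are at least `c - 1` (no condition if `X 0` is smooth along the
base locus).  Let `X 0, ..., X N` be a sequence of flips such that all `X (i + 1)` are smooth at
the flipped points of codimension at most `c`, and let `q` be the (finite) number of components
of codimension `c` of the base locus.  Then at most `q` flips remove a point of codimension at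
most `c`, in every dimension `n`; if `n ≤ 2 c` then `N ≤ q`.

If moreover only finitely many, say `f`, prime divisors with centre at the singular points of
`X 0` in the base locus have discrepancy less than `c` (for `c = 2` the conditions on
discrepancies hold for all terminal Gorenstein varieties, by resolution of singularities), and if
all `X (i + 1)` are smooth at the flipped points of codimension `c + 1` (for `c = 2` this is
automatic for terminal Gorenstein `X 0`, by theorems of Markushevich and Kawamata on three
dimensional singularities, which are not used here), then at most `2 q + f` flips remove a point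
of codimension at most `c` or create a point of codimension `c + 1`, in every dimension `n`; if
`n ≤ 2 c + 1` then `N ≤ 2 q + f`.  In particular there is no infinite sequence of such flips, for
example, if `n = 5` and the base locus has codimension at least two, or `n = 6, 7` and it has
codimension at least three.
-/

open scoped KaehlerDifferential

namespace Pool.Agent.Results.MP_a06248_ag.SmallBaseLocus

open Flip28

/-- Explicit bounds for the number of flips when a pluricanonical system has base locus of
codimension `c`. -/
theorem result {k K : Type*} [Field k] [CharZero k] [Field K] [Algebra k K]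
    [Algebra.EssFiniteType k K] {n : ℕ} (b : Module.Basis (Fin n) K Ω[K⁄k])
    {c N : ℕ} (hc : 2 ≤ c)
    (X Y : ℕ → Set (Subalgebra k K)) (hX : IsCompleteNormal (X 0))
    (hf : ∀ i < N, IsFlip b (X i) (Y i) (X (i + 1)))
    {m : ℤ} (hm : 0 < m) {S : Set K} (hS : S.Finite) (hsec : S ⊆ Sec b (X 0) m ⊥)
    (hBs : ∀ A ∈ Bs b (X 0) m S, (c : WithBot ℕ∞) ≤ ringKrullDim A)
    (h1 : ∀ E, IsPrimeDiv E → ∀ A ∈ Bs b (X 0) m S, Dom A E → ¬ Algebra.FormallySmooth k A →
      (c : ℚ) - 1 ≤ disc b (X 0) E)
    (h3 : ∀ i < N, ∀ F ∈ X (i + 1), F ∉ X i →
      ringKrullDim F ≤ (c : WithBot ℕ∞) → Algebra.FormallySmooth k F) :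
    {A | A ∈ Bs b (X 0) m S ∧ ringKrullDim A = c}.Finite ∧
    {i | i < N ∧ ∃ P ∈ X i, P ∉ X (i + 1) ∧ ringKrullDim P ≤ c}.ncard ≤
      {A | A ∈ Bs b (X 0) m S ∧ ringKrullDim A = c}.ncard ∧
    (n ≤ 2 * c → N ≤ {A | A ∈ Bs b (X 0) m S ∧ ringKrullDim A = c}.ncard) ∧
    ({E | IsPrimeDiv E ∧ (∃ A ∈ Bs b (X 0) m S, Dom A E ∧ ¬ Algebra.FormallySmooth k A) ∧
        disc b (X 0) E < c}.Finite →
      (∀ i < N, ∀ F ∈ X (i + 1), F ∉ X i →
        ringKrullDim F = (c : WithBot ℕ∞) + 1 → Algebra.FormallySmooth k F) →
      {i | i < N ∧ ((∃ P ∈ X i, P ∉ X (i + 1) ∧ ringKrullDim P ≤ c) ∨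
        ∃ F ∈ X (i + 1), F ∉ X i ∧ ringKrullDim F = (c : WithBot ℕ∞) + 1)}.ncard ≤
        2 * {A | A ∈ Bs b (X 0) m S ∧ ringKrullDim A = c}.ncard +
        {E | IsPrimeDiv E ∧ (∃ A ∈ Bs b (X 0) m S, Dom A E ∧ ¬ Algebra.FormallySmooth k A) ∧
          disc b (X 0) E < c}.ncard ∧
      (n ≤ 2 * c + 1 →
        N ≤ 2 * {A | A ∈ Bs b (X 0) m S ∧ ringKrullDim A = c}.ncard +
        {E | IsPrimeDiv E ∧ (∃ A ∈ Bs b (X 0) m S, Dom A E ∧ ¬ Algebra.FormallySmooth k A) ∧
          disc b (X 0) E < c}.ncard)) :=
  main93 b hc X Y hX hf hm hS hsec hBs h1 h3

end Pool.Agent.Results.MP_a06248_ag.SmallBaseLocus
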