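import Pool.Agent.FlipP_h28.PH1

/-!
# Arbitrary sequences of flips of terminal varieties

A complete normal variety over the field `k` of characteristic zero with function field `K` is
the set `X` of the local rings of its points; flips, discrepancies and prime divisors are defined
in `Pool.Agent.Flip_h28.Defs`, projective varieties (`IsProj`) in `Pool.Agent.Flip_h28.AlgDefs`.
The codimension of a point is the Krull dimension of its local ring.

Let `c ≥ 2`.  The varieties `X i` are assumed to be smooth in codimension at most `c`, the
discrepancies of the prime divisors whose centre is a singular point are greater than `c - 2`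
(`Term b c (X i)`; for `c = 2` this says that `X i` is terminal), and `X i` has a resolution
(`HasRes`).

A prime divisor `V` is bad (`BadDiv b c X V`) if `c - 2 < a(V, X i) < c - 1` for almost all `i`
and if infinitely many flips touch the closure of its centre.  For `c = 2` there are no bad `V`
for example if `X 0` is Gorenstein and the flips are small; for smooth `X i` (any `c`) there are
none either.  The hypothesis `HypU` says that for every bad `V` one of the following holds.

* `AppDiv b c X V`: `K` is pseudoeffective and `a(V, X j) + σ_V(K) < c - 1`.  In detail, there are
  an effective Weil divisor `D` on some `X j` and a number `κ < c - 1` such that for all `η > 0`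
  there is an effective Weil divisor `D'` such that for all `δ > 0` there are `m > 0` and a
  nonzero section `g` of `m (K + η D + δ D')` on `X j` whose order along `V` (as a pluricanonical
  form) is at most `κ m`.
* There are finitely many rational pluricanonical forms `g` of weight `m > 0` with order less
  than `(c - 1) m` along `V` such that for all large `i` at every smooth flipped point of
  codimension `c + 1` of `X (i + 1)` one of them is regular.

Theorem.  Let `X 0, X 1, ...` be an infinite sequence of flips of such varieties of dimension `n`.
Assume that over every singular flipped point of codimension `c + 1` there is a prime divisor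
whose discrepancy belongs to a given set `Δ` of rational numbers at most `c - 1` which contains
no strictly increasing sequences (this is void if the `X i` are smooth in codimension `c + 1`; for
`c = 2` and `Δ = {1 / r}` it is a theorem of Markushevich and Kawamata on terminal singularities
of dimension 3).  Assume `HypU`.  Then `n ≥ 2 c + 3`, and for all but finitely many `i` the
varieties `X i` and `X (i + 1)` have the same points of codimension at most `c + 1`.

So for `c = 2` infinite sequences exist at most in dimension `≥ 7`, and in every dimension almost
all flips are isomorphisms in codimension at most `3`.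
-/

open scoped KaehlerDifferential

universe u

namespace Pool.Agent.Results.MP_a06248_ag.TerminalFlips

open Flip28

/-- Infinite sequences of flips of terminal projective varieties. -/
theorem result {k K : Type u} [Field k] [CharZero k] [Field K] [Algebra k K]
    [Algebra.EssFiniteType k K] {n : ℕ} (b : Module.Basis (Fin n) K Ω[K⁄k]) {c : ℕ} (hc : 2 ≤ c)
    (X Y : ℕ → Set (Subalgebra k K)) (hX : IsCompleteNormal (X 0))
    (hP : ∀ i, IsProj (X i)) (hf : ∀ i, IsFlip b (X i) (Y i) (X (i + 1)))
    (hT : ∀ i, Term b c (X i)) (hR : ∀ i, HasRes (X i))
    {Δ : Set ℚ} (hΔ : ∀ a ∈ Δ, a ≤ (c : ℚ) - 1)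
    (hacc : ∀ f : ℕ → ℚ, StrictMono f → ∃ i, f i ∉ Δ)
    (hM : ∀ i, ∀ F ∈ X (i + 1), F ∉ X i → ringKrullDim F = ((c + 1 : ℕ) : WithBot ℕ∞) →
      ¬ Algebra.FormallySmooth k F → ∃ E, IsPrimeDiv E ∧ Dom F E ∧ disc b (X (i + 1)) E ∈ Δ)
    (hU : HypU b c X) :
    2 * c + 3 ≤ n ∧ ∃ i1, ∀ i, i1 ≤ i → ∀ A : Subalgebra k K,
      ringKrullDim A ≤ ((c + 1 : ℕ) : WithBot ℕ∞) → (A ∈ X i ↔ A ∈ X (i + 1)) :=
  SetupN.mainU ⟨hc, hX, hP, hf, hT, hR⟩ hΔ hacc hM hU

end Pool.Agent.Results.MP_a06248_ag.TerminalFlips
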