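import Pool.Agent.W_a06248_93.Succ

/-!
# A uniform bound for the number of flips

A complete normal variety over the field `k` of characteristic zero with function field `K` is
the set `X` of the local rings of its points; flips, discrepancies and prime divisors are defined
in `Pool.Agent.Flip_h28.Defs`, projective varieties (`IsProj`) in `Pool.Agent.Flip_h28.AlgDefs`.
The codimension of a point is the Krull dimension of its local ring.

For a natural number `c` the variety `X` is called good (`Good b c X`) if it is smooth in
codimension at most `c` and the discrepancies of the prime divisors whose centre is a singular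
point are at least `c - 1`, only finitely many being less than `c` (for `c = 2`: for instance
Gorenstein terminal varieties).

Theorem.  Let `X0` be a good projective variety of dimension `n > c`.  There is a number `v`,
depending only on `X0` and `c`, such that every sequence of flips `X 0 = X0, X 1, ..., X N` of
projective varieties which are smooth in codimension at most `c`, touching only points of
codimension at least `c`, contains at most `v` flips removing a point of codimension `c`; if
`n ≤ 2 c` then `N ≤ v`.

Moreover, suppose that no prime divisor has a discrepancy between `c - 1` and `c` with respect to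
one of the `X i`, `i < N` (for instance that the canonical divisors of the `X i` are Cartier
divisors), and that every flipped point `F` of codimension `c + 1` is smooth or the centre of a
prime divisor of discrepancy at most `c` with respect to `X (i + 1)` (for `c = 2` and terminal
varieties this is a theorem of Markushevich and Kawamata).  Let `f` be the number of the prime
divisors whose centre on `X0` is singular and whose discrepancy with respect to `X0` is less than
`c`.  Then at most `v + f` flips remove a point of codimension `c` or create a point of
codimension `c + 1`; if `c ≥ 1` and `n ≤ 2 c + 1` then `N ≤ v + f`.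

The number `v` is the dimension of the cohomology group of degree `n - c` of the image of the
sheaf of `(n - c)`-forms on `X0` in the constant sheaf of rational forms.
-/

open scoped KaehlerDifferential

universe u

namespace Pool.Agent.Results.MP_a06248_ag.UniformBound

open Flip28

/-- The number of flips removing points of codimension `c` (and, in the cases described above,
the number of those removing such points or creating points of codimension `c + 1`, and the number
of all flips) is bounded in terms of the first variety. -/
theorem result {k K : Type u} [Field k] [CharZero k] [Field K] [Algebra k K]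
    [Algebra.EssFiniteType k K] {n : ℕ} (b : Module.Basis (Fin n) K Ω[K⁄k]) {c : ℕ}
    {X0 : Set (Subalgebra k K)} (hX0 : IsCompleteNormal X0) (hX0p : IsProj X0)
    (hg : Good b c X0) (hcn : c < n) :
    ∃ v : ℕ, ∀ (N : ℕ) (X Y : ℕ → Set (Subalgebra k K)), X 0 = X0 →
      (∀ i ≤ N, IsProj (X i)) → (∀ i < N, IsFlip b (X i) (Y i) (X (i + 1))) →
      (∀ i < N, ∀ A ∈ X i, ringKrullDim A < c → A ∈ X (i + 1)) →
      (∀ i ≤ N, ∀ A ∈ X i, ringKrullDim A ≤ c → Algebra.FormallySmooth k A) →
      {i | i < N ∧ ∃ P ∈ X i, P ∉ X (i + 1) ∧ ringKrullDim P = c}.ncard ≤ v ∧
        (n ≤ 2 * c → N ≤ v) ∧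
        ((∀ i < N, ∀ E, IsPrimeDiv E →
            disc b (X i) E ≤ (c : ℚ) - 1 ∨ (c : ℚ) ≤ disc b (X i) E) →
          (∀ i < N, ∀ F ∈ X (i + 1), F ∉ X i → ringKrullDim F = (c : WithBot ℕ∞) + 1 →
            Algebra.FormallySmooth k F ∨
              ∃ E, IsPrimeDiv E ∧ Dom F E ∧ disc b (X (i + 1)) E ≤ c) →
          {i | i < N ∧ ((∃ P ∈ X i, P ∉ X (i + 1) ∧ ringKrullDim P = c) ∨
            ∃ F ∈ X (i + 1), F ∉ X i ∧ ringKrullDim F = (c : WithBot ℕ∞) + 1)}.ncard ≤
              v + {E | IsPrimeDiv E ∧ (∃ A ∈ X0, Dom A E ∧ ¬ Algebra.FormallySmooth k A) ∧
                disc b X0 E < c}.ncard ∧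
          (1 ≤ c → n ≤ 2 * c + 1 →
            N ≤ v + {E | IsPrimeDiv E ∧ (∃ A ∈ X0, Dom A E ∧ ¬ Algebra.FormallySmooth k A) ∧
              disc b X0 E < c}.ncard)) :=
  flips_uniform_succ93 b hX0 hX0p hg hcn

end Pool.Agent.Results.MP_a06248_ag.UniformBound
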